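import Pool.Agent.Helper190.NJ2.Main

set_option autoImplicit false

namespace Pool.Agent.Helper190.NJ3

open MvPolynomial Matrix
open Pool.Agent.Helper190.NJ2 (jac cmat Admissible alg_of_det)

theorem adm_of {n : ℕ} (s : Fin n → MvPolynomial (Fin n) ℝ) (hd : (jac s).det ≠ 0)
    (hh : ∀ k : Fin n, (s k).IsHomogeneous ((k : ℕ) + 1))
    (L : Matrix (Fin n) (Fin n) (MvPolynomial (Fin n) ℝ)) (hL : jac s * L = cmat s * jac s) :
    Admissible s := by
  refine ⟨alg_of_det s hd, hh, fun i j => ⟨L i j, ?_⟩⟩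
  have h1 : (jac s).adjugate * cmat s * jac s = (jac s).det • L := by
    rw [Matrix.mul_assoc, ← hL, ← Matrix.mul_assoc, Matrix.adjugate_mul, Matrix.smul_mul,
      Matrix.one_mul]
  rw [h1, Matrix.smul_apply, smul_eq_mul]

theorem cj {m : ℕ} (s : Fin (m + 1) → MvPolynomial (Fin (m + 1)) ℝ)
    (M : Matrix (Fin (m + 1)) (Fin (m + 1)) (MvPolynomial (Fin (m + 1)) ℝ)) (i j : Fin (m + 1)) :
    (cmat s * M) i j = - s i * M 0 j +
      if h : (i : ℕ) + 1 < m + 1 then M ⟨(i : ℕ) + 1, h⟩ j else 0 := by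
  rw [Matrix.mul_apply]
  have h1 : ∀ k : Fin (m + 1), cmat s i k * M k j =
      (if k = 0 then - s i * M k j else 0) + (if (k : ℕ) = (i : ℕ) + 1 then M k j else 0) := by
    intro k
    simp only [cmat, Matrix.of_apply]
    by_cases hk : k = 0
    · subst hk; simp
    · have hk' : (k : ℕ) ≠ 0 := fun h => hk (Fin.ext h)
      simp only [hk, hk', if_false, zero_add]
      split_ifs <;> simp
  rw [Finset.sum_congr rfl (fun k _ => h1 k), Finset.sum_add_distrib]
  congr 1
  · simp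
  · split_ifs with h
    · rw [Finset.sum_eq_single (⟨(i : ℕ) + 1, h⟩ : Fin (m + 1))]
      · simp
      · intro k _ hk
        rw [if_neg]
        intro h2
        exact hk (Fin.ext h2)
      · simp
    · apply Finset.sum_eq_zero
      intro k _
      rw [if_neg]
      intro h2
      exact h (h2 ▸ k.2)

/-- `t^n + x_1 t^(n-1) + b x_2 t^(n-2) + ... + b^(n-2) x_(n-1) t + b^n`. -/
noncomputable def famF (m : ℕ) : Fin (m + 1) → MvPolynomial (Fin (m + 1)) ℝ :=
  fun i => X i * X (Fin.last m) ^ (i : ℕ)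

theorem pdX {n : ℕ} (i j : Fin n) :
    pderiv j (X i : MvPolynomial (Fin n) ℝ) = if j = i then 1 else 0 := by
  rw [pderiv_X, Pi.single_apply]
  by_cases h : j = i
  · rw [if_pos h, if_pos h.symm]
  · rw [if_neg h, if_neg (fun h' => h h'.symm)]

theorem jacF (m : ℕ) (i j : Fin (m + 1)) : jac (famF m) i j =
    (if j = i then X (Fin.last m) ^ (i : ℕ) else 0) +
      (if j = Fin.last m then X i * (((i : ℕ) : MvPolynomial (Fin (m + 1)) ℝ) *
        X (Fin.last m) ^ ((i : ℕ) - 1)) else 0) := by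
  simp only [jac, famF, Matrix.of_apply, Derivation.leibniz, Derivation.leibniz_pow, pdX,
    smul_eq_mul, nsmul_eq_mul]
  split_ifs <;> ring

theorem detF (m : ℕ) : (jac (famF m)).det ≠ 0 := by
  have hT : (jac (famF m)).BlockTriangular id := by
    intro i j hij
    have hij' : j < i := hij
    rw [jacF, if_neg hij'.ne, if_neg (ne_of_lt (lt_of_lt_of_le hij' (Fin.le_last i))), add_zero]
  rw [Matrix.det_of_isUpperTriangular hT]
  refine Finset.prod_ne_zero_iff.2 (fun i _ => ?_)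
  intro h0
  have h1 := congrArg (MvPolynomial.eval (fun _ => (1 : ℝ))) h0
  rw [jacF, if_pos rfl] at h1
  have hi : (0 : ℝ) ≤ (i : ℕ) := Nat.cast_nonneg _
  split_ifs at h1
  · simp at h1
    linarith
  · simp at h1

theorem homF (m : ℕ) (k : Fin (m + 1)) : (famF m k).IsHomogeneous ((k : ℕ) + 1) := by
  have := (isHomogeneous_X ℝ k).mul ((isHomogeneous_X ℝ (Fin.last m)).pow (k : ℕ))
  have h2 : 1 + 1 * (k : ℕ) = (k : ℕ) + 1 := by ring
  rw [h2] at this
  exact this

noncomputable def LF (m : ℕ) : Matrix (Fin (m + 1)) (Fin (m + 1)) (MvPolynomial (Fin (m + 1)) ℝ) :=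
  Matrix.of fun i j =>
    (if j = 0 then - (C (1 - (i : ℕ) / ((m : ℝ) + 1)) * X i) else 0) +
      if h : (i : ℕ) + 1 < m + 1 then
        (if j = Fin.last m then
          (((i : ℕ) + 1 : ℕ) : MvPolynomial (Fin (m + 1)) ℝ) * X ⟨(i : ℕ) + 1, h⟩ else 0) +
        (if j = ⟨(i : ℕ) + 1, h⟩ then X (Fin.last m) else 0)
      else 0

theorem eqF (m : ℕ) : jac (famF m) * LF m = cmat (famF m) * jac (famF m) := by
  ext1 i j
  rw [cj, Matrix.mul_apply]
  have h1 : ∀ k : Fin (m + 1), jac (famF m) i k * LF m k j =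
      (if k = i then X (Fin.last m) ^ (i : ℕ) * LF m k j else 0) +
      (if k = Fin.last m then X i * (((i : ℕ) : MvPolynomial (Fin (m + 1)) ℝ) *
        X (Fin.last m) ^ ((i : ℕ) - 1)) * LF m k j else 0) := by
    intro k
    rw [jacF, add_mul]
    congr 1 <;> split_ifs <;> simp
  rw [Finset.sum_congr rfl (fun k _ => h1 k), Finset.sum_add_distrib, Finset.sum_ite_eq' ,
    Finset.sum_ite_eq', if_pos (Finset.mem_univ _), if_pos (Finset.mem_univ _)]
  have hm : ((m : ℝ) + 1) ≠ 0 := by positivity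
  have hlast : LF m (Fin.last m) j =
      if j = 0 then - (C (1 / ((m : ℝ) + 1)) * X (Fin.last m)) else 0 := by
    have h3 : (1 : ℝ) - (m : ℝ) / ((m : ℝ) + 1) = 1 / ((m : ℝ) + 1) := by field_simp; ring
    simp only [LF, Matrix.of_apply, Fin.val_last]
    rw [h3, dif_neg (lt_irrefl _), add_zero]
  have hc : (C (1 - ((i : ℕ) : ℝ) / ((m : ℝ) + 1)) : MvPolynomial (Fin (m + 1)) ℝ) +
      C (1 / ((m : ℝ) + 1)) * ((i : ℕ) : MvPolynomial (Fin (m + 1)) ℝ) = 1 := by
    have h4 : (((i : ℕ) : MvPolynomial (Fin (m + 1)) ℝ)) = C (((i : ℕ) : ℝ)) := by simp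
    rw [h4, ← C_mul, ← C_add, ← C_1]
    congr 1
    field_simp
    ring
  have hp : ((i : ℕ) : MvPolynomial (Fin (m + 1)) ℝ) * X (Fin.last m) ^ ((i : ℕ) - 1) *
      X (Fin.last m) = ((i : ℕ) : MvPolynomial (Fin (m + 1)) ℝ) * X (Fin.last m) ^ (i : ℕ) := by
    rcases Nat.eq_zero_or_pos (i : ℕ) with h | h
    · rw [h]; simp
    · rw [mul_assoc, ← pow_succ, Nat.sub_add_cancel h]
  have hJ0 : jac (famF m) 0 j = if j = 0 then 1 else 0 := by
    rw [jacF]; simp
  rw [hlast, hJ0]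
  have hLi : LF m i j = (if j = 0 then - (C (1 - (i : ℕ) / ((m : ℝ) + 1)) * X i) else 0) +
      if h : (i : ℕ) + 1 < m + 1 then
        (if j = Fin.last m then
          (((i : ℕ) + 1 : ℕ) : MvPolynomial (Fin (m + 1)) ℝ) * X ⟨(i : ℕ) + 1, h⟩ else 0) +
        (if j = ⟨(i : ℕ) + 1, h⟩ then X (Fin.last m) else 0)
      else 0 := rfl
  have key : X (Fin.last m) ^ (i : ℕ) *
      (if j = 0 then - (C (1 - (i : ℕ) / ((m : ℝ) + 1)) * X i) else 0) +
      X i * (((i : ℕ) : MvPolynomial (Fin (m + 1)) ℝ) * X (Fin.last m) ^ ((i : ℕ) - 1)) *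
        (if j = 0 then - (C (1 / ((m : ℝ) + 1)) * X (Fin.last m)) else 0) =
      - famF m i * (if j = 0 then 1 else 0) := by
    split_ifs
    · unfold famF
      linear_combination (- (X i : MvPolynomial (Fin (m + 1)) ℝ) * X (Fin.last m) ^ (i : ℕ)) * hc
        - (X i * C (1 / ((m : ℝ) + 1))) * hp
    · simp
  rw [hLi, mul_add, add_right_comm, key]
  congr 1
  by_cases h : (i : ℕ) + 1 < m + 1
  · rw [dif_pos h, dif_pos h, jacF]
    simp only [Nat.add_sub_cancel]
    split_ifs <;> push_cast <;> ring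
  · rw [dif_neg h, dif_neg h, mul_zero]

theorem admF (m : ℕ) : Admissible (famF m) := adm_of _ (detF m) (homF m) (LF m) (eqF m)

/-- `X (i + 1)`, and `0` for the last `i`. -/
noncomputable def nx {m : ℕ} (i : Fin (m + 1)) : MvPolynomial (Fin (m + 1)) ℝ :=
  if h : (i : ℕ) + 1 < m + 1 then X ⟨(i : ℕ) + 1, h⟩ else 0

/-- `(t + a)(t^m + x_1 t^(m-1) + a x_2 t^(m-2) + ... + a^(m-1) x_m)`, where `a = x_0`. -/
noncomputable def famR (m : ℕ) : Fin (m + 1) → MvPolynomial (Fin (m + 1)) ℝ :=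
  fun i => X 0 ^ (i : ℕ) * (X i + nx i)

/-- partial derivative of `nx`. -/
noncomputable def dn {m : ℕ} (i j : Fin (m + 1)) : MvPolynomial (Fin (m + 1)) ℝ :=
  if (j : ℕ) = (i : ℕ) + 1 then 1 else 0

theorem pdn {m : ℕ} (i j : Fin (m + 1)) : pderiv j (nx i) = dn i j := by
  unfold nx dn
  by_cases h : (i : ℕ) + 1 < m + 1
  · rw [dif_pos h, pdX]
    congr 1
    exact propext ⟨fun h' => congrArg Fin.val h', fun h' => Fin.ext h'⟩
  · rw [dif_neg h, map_zero, if_neg]
    intro h'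
    exact h (h' ▸ j.2)

noncomputable def d0 {m : ℕ} (j : Fin (m + 1)) : MvPolynomial (Fin (m + 1)) ℝ :=
  if j = 0 then 1 else 0

theorem jacR (m : ℕ) (i j : Fin (m + 1)) : jac (famR m) i j =
    X 0 ^ (i : ℕ) * ((if j = i then 1 else 0) + dn i j) +
      d0 j * ((X i + nx i) * (((i : ℕ) : MvPolynomial (Fin (m + 1)) ℝ) *
        X 0 ^ ((i : ℕ) - 1))) := by
  simp only [jac, famR, Matrix.of_apply, Derivation.leibniz, Derivation.leibniz_pow, pdX, map_add,
    pdn, smul_eq_mul, nsmul_eq_mul, d0]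
  split_ifs <;> ring

noncomputable def d1 {m : ℕ} (j : Fin (m + 1)) : MvPolynomial (Fin (m + 1)) ℝ :=
  if (j : ℕ) = 1 then 1 else 0

noncomputable def LR (m : ℕ) : Matrix (Fin (m + 1)) (Fin (m + 1)) (MvPolynomial (Fin (m + 1)) ℝ) :=
  Matrix.of fun i j =>
    if i = 0 then - (d0 j * X 0) else
    d0 j * ((((i : ℕ) : MvPolynomial (Fin (m + 1)) ℝ) - 1) * X i +
      ((i : ℕ) : MvPolynomial (Fin (m + 1)) ℝ) * nx i) - d1 j * X i + X 0 * dn i j

theorem sdn {m : ℕ} (i : Fin (m + 1)) (f : Fin (m + 1) → MvPolynomial (Fin (m + 1)) ℝ) :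
    ∑ k, dn i k * f k = if h : (i : ℕ) + 1 < m + 1 then f ⟨(i : ℕ) + 1, h⟩ else 0 := by
  unfold dn
  split_ifs with h
  · rw [Finset.sum_eq_single (⟨(i : ℕ) + 1, h⟩ : Fin (m + 1))]
    · simp
    · intro k _ hk
      rw [if_neg, zero_mul]
      intro h2
      exact hk (Fin.ext h2)
    · simp
  · apply Finset.sum_eq_zero
    intro k _
    rw [if_neg, zero_mul]
    intro h2
    exact h (h2 ▸ k.2)

theorem eqR (m : ℕ) : jac (famR m) * LR m = cmat (famR m) * jac (famR m) := by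
  ext1 i j
  rw [cj, Matrix.mul_apply]
  have h1 : ∀ k : Fin (m + 1), jac (famR m) i k * LR m k j =
      (if k = i then X 0 ^ (i : ℕ) * LR m k j else 0) +
      dn i k * (X 0 ^ (i : ℕ) * LR m k j) +
      (if k = 0 then ((X i + nx i) * (((i : ℕ) : MvPolynomial (Fin (m + 1)) ℝ) *
        X 0 ^ ((i : ℕ) - 1))) * LR m k j else 0) := by
    intro k
    rw [jacR]
    unfold d0
    split_ifs <;> ring
  rw [Finset.sum_congr rfl (fun k _ => h1 k), Finset.sum_add_distrib, Finset.sum_add_distrib,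
    Finset.sum_ite_eq', Finset.sum_ite_eq', if_pos (Finset.mem_univ _),
    if_pos (Finset.mem_univ _), sdn]
  have hL0 : LR m 0 j = - (d0 j * X 0) := by simp [LR]
  have hJ0 : jac (famR m) 0 j = d0 j + d1 j := by
    rw [jacR]
    simp [d0, d1, dn]
  have hp : ((i : ℕ) : MvPolynomial (Fin (m + 1)) ℝ) * X 0 ^ ((i : ℕ) - 1) * X 0 =
      ((i : ℕ) : MvPolynomial (Fin (m + 1)) ℝ) * X 0 ^ (i : ℕ) := by
    rcases Nat.eq_zero_or_pos (i : ℕ) with h | h
    · rw [h]; simp
    · rw [mul_assoc, ← pow_succ, Nat.sub_add_cancel h]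
  rw [hL0, hJ0]
  have hLi : LR m i j = d0 j * ((((i : ℕ) : MvPolynomial (Fin (m + 1)) ℝ) - 1) * X i +
      ((i : ℕ) : MvPolynomial (Fin (m + 1)) ℝ) * nx i) - d1 j * X i + X 0 * dn i j := by
    by_cases hi : i = 0
    · subst hi
      rw [hL0]
      have : dn (0 : Fin (m + 1)) j = d1 j := by simp [dn, d1]
      rw [this]
      simp
      ring
    · simp [LR, hi]
  rw [hLi]
  by_cases h : (i : ℕ) + 1 < m + 1
  · rw [dif_pos h, dif_pos h, jacR]
    have hne : (⟨(i : ℕ) + 1, h⟩ : Fin (m + 1)) ≠ 0 := by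
      intro h'
      have := congrArg Fin.val h'
      simp at this
    have hL1 : LR m ⟨(i : ℕ) + 1, h⟩ j =
        d0 j * ((((i : ℕ) : MvPolynomial (Fin (m + 1)) ℝ)) * X ⟨(i : ℕ) + 1, h⟩ +
        (((i : ℕ) : MvPolynomial (Fin (m + 1)) ℝ) + 1) * nx ⟨(i : ℕ) + 1, h⟩) -
        d1 j * X ⟨(i : ℕ) + 1, h⟩ + X 0 * dn ⟨(i : ℕ) + 1, h⟩ j := by
      simp only [LR, Matrix.of_apply, if_neg hne]
      push_cast
      ring
    have hnx : nx i = X ⟨(i : ℕ) + 1, h⟩ := by
      unfold nx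
      rw [dif_pos h]
    have hdn : (if j = (⟨(i : ℕ) + 1, h⟩ : Fin (m + 1)) then
        (1 : MvPolynomial (Fin (m + 1)) ℝ) else 0) = dn i j := by
      unfold dn
      congr 1
      exact propext ⟨fun h' => congrArg Fin.val h', fun h' => Fin.ext h'⟩
    rw [hL1, hnx, hdn]
    simp only [Nat.add_sub_cancel]
    unfold famR
    rw [hnx]
    push_cast
    linear_combination (- (X i + X ⟨(i : ℕ) + 1, h⟩) * d0 j) * hp
  · rw [dif_neg h, dif_neg h]
    have hnx : nx i = 0 := by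
      unfold nx
      rw [dif_neg h]
    have hdn : dn i j = 0 := by
      unfold dn
      rw [if_neg]
      intro h2
      exact h (h2 ▸ j.2)
    unfold famR
    rw [hnx, hdn]
    linear_combination (- (X i) * d0 j) * hp

theorem homR (m : ℕ) (k : Fin (m + 1)) : (famR m k).IsHomogeneous ((k : ℕ) + 1) := by
  have hn : (nx k : MvPolynomial (Fin (m + 1)) ℝ).IsHomogeneous 1 := by
    unfold nx
    split_ifs
    · exact isHomogeneous_X _ _
    · exact isHomogeneous_zero _ _ _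
  have := ((isHomogeneous_X ℝ (0 : Fin (m + 1))).pow (k : ℕ)).mul
    ((isHomogeneous_X ℝ k).add hn)
  have h2 : 1 * (k : ℕ) + 1 = (k : ℕ) + 1 := by ring
  rw [h2] at this
  exact this

theorem detR (m : ℕ) : (jac (famR m)).det ≠ 0 := by
  intro h0
  set v : Fin (m + 1) → ℝ := fun i => if i = 0 then 1 else 0 with hv
  have h1 := congrArg (MvPolynomial.eval v) h0
  rw [RingHom.map_det, map_zero] at h1
  have hnx : ∀ i : Fin (m + 1), MvPolynomial.eval v (nx i) = 0 := by
    intro i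
    unfold nx
    split_ifs with h
    · rw [eval_X, hv]
      simp only
      rw [if_neg]
      intro h'
      have := congrArg Fin.val h'
      simp at this
    · simp
  have hdn : ∀ i j : Fin (m + 1), j ≤ i → dn i j = 0 := by
    intro i j hij
    unfold dn
    rw [if_neg]
    intro h2
    have : (j : ℕ) ≤ (i : ℕ) := hij
    omega
  have hent : ∀ i j : Fin (m + 1), j ≤ i → (RingHom.mapMatrix (MvPolynomial.eval v)
      (jac (famR m))) i j = if j = i then 1 else 0 := by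
    intro i j hij
    rw [RingHom.mapMatrix_apply, Matrix.map_apply, jacR, hdn i j hij]
    have hv0 : v 0 = 1 := by simp [hv]
    by_cases hi : i = 0
    · subst hi
      unfold d0
      split_ifs <;> simp [hnx, hv0]
    · have hvi : v i = 0 := by simp [hv, hi]
      unfold d0
      split_ifs <;> simp [hnx, hv0, hvi]
  have hT : (RingHom.mapMatrix (MvPolynomial.eval v) (jac (famR m))).BlockTriangular id := by
    intro i j hij
    have hij' : j < i := hij
    rw [hent i j hij'.le, if_neg hij'.ne]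
  rw [Matrix.det_of_isUpperTriangular hT] at h1
  have h2 : ∏ i : Fin (m + 1), (RingHom.mapMatrix (MvPolynomial.eval v) (jac (famR m))) i i = 1 := by
    apply Finset.prod_eq_one
    intro i _
    rw [hent i i le_rfl, if_pos rfl]
  rw [h2] at h1
  exact one_ne_zero h1

theorem admR (m : ℕ) : Admissible (famR m) := adm_of _ (detR m) (homR m) (LR m) (eqR m)

end Pool.Agent.Helper190.NJ3
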